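import Mathlib
import Pool.Agent.W27.TQ.Main

set_option autoImplicit false

namespace Pool.Agent.Results.MP_f6e9a2_nt.BelowSquareRoot

open scoped Pointwise

/-- The Paley graph conjecture below the square root: `A` ARBITRARY with `|A| ≥ p^(1/2-c)`, and
`B` of bounded doubling with `|B| ≥ p^ε`, `ε > 0` arbitrarily small, `c = c(ε, K) > 0`.

(1) For all `ε > 0` and `K` there are `c, δ > 0` and `P` such that for every prime `p ≥ P`, every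
nontrivial `χ` modulo `p` and all `A, B` with `|B+B| ≤ K |B|`, `|B| ≥ p^ε`, `|A| ≥ p^(1/2-c)`:
`|∑_{a ∈ A, b ∈ B} χ(a+b)| ≤ p^(-δ) |A| |B|`; and for every set `Y` with `|Y+B| ≤ p^δ |Y|` and all
weights `|α| ≤ 1` and `β`,
`∑_{y ∈ Y} |∑_{a ∈ A} α(a) χ(a+y)| ≤ p^(-δ) |A| |Y|` and
`|∑_{a ∈ A, y ∈ Y} α(a) β(y) χ(a+y)| ≤ p^(-δ) |A| |Y|^(1/2) ‖β‖₂`.

(2) The last two bounds hold, for `A` arbitrary with `|A| ≥ p^ε`, for every set `Y` with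
`|Y+I| ≤ p^δ |Y|` for some arithmetic progression `I` of length `N`, `p^ε ≤ N ≤ p`, as soon as
`|A| N max(|A|, N) ≥ p^(1+ε)`, with `δ = δ(ε) > 0`. -/
theorem result :
    (∀ ε K : ℝ, 0 < ε →
      ∃ c : ℝ, 0 < c ∧ ∃ δ : ℝ, 0 < δ ∧ ∃ P : ℕ, ∀ p : ℕ, ∀ _ : Fact p.Prime, P ≤ p →
        ∀ χ : DirichletCharacter ℂ p, χ ≠ 1 → ∀ A B : Finset (ZMod p),
          ((B + B).card : ℝ) ≤ K * B.card → (p : ℝ) ^ ε ≤ B.card →
          (p : ℝ) ^ (1 / 2 - c) ≤ A.card →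
          ‖∑ a ∈ A, ∑ b ∈ B, χ (a + b)‖ ≤ (p : ℝ) ^ (-δ) * (A.card * B.card) ∧
          ∀ Y : Finset (ZMod p), ((Y + B).card : ℝ) ≤ (p : ℝ) ^ δ * Y.card →
            ∀ α β : ZMod p → ℂ, (∀ a, ‖α a‖ ≤ 1) →
              ∑ y ∈ Y, ‖∑ a ∈ A, α a * χ (a + y)‖ ≤ (p : ℝ) ^ (-δ) * (A.card * Y.card) ∧
              ‖∑ a ∈ A, ∑ y ∈ Y, α a * β y * χ (a + y)‖
                ≤ (p : ℝ) ^ (-δ) * (A.card * Real.sqrt (Y.card * ∑ y ∈ Y, ‖β y‖ ^ 2))) ∧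
    (∀ ε : ℝ, 0 < ε →
      ∃ δ : ℝ, 0 < δ ∧ ∃ P : ℕ, ∀ p : ℕ, ∀ _ : Fact p.Prime, P ≤ p →
        ∀ χ : DirichletCharacter ℂ p, χ ≠ 1 → ∀ (N : ℕ) (v : ZMod p) (A Y : Finset (ZMod p)),
          v ≠ 0 → N ≤ p → (p : ℝ) ^ ε ≤ N → (p : ℝ) ^ ε ≤ A.card →
          (p : ℝ) ^ (1 + ε) ≤ A.card * N * max (A.card : ℝ) N →
          ((Y + (Finset.range N).image (fun j : ℕ => (j : ZMod p) * v)).card : ℝ)
            ≤ (p : ℝ) ^ δ * Y.card →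
            ∀ α β : ZMod p → ℂ, (∀ a, ‖α a‖ ≤ 1) →
              ∑ y ∈ Y, ‖∑ a ∈ A, α a * χ (a + y)‖ ≤ (p : ℝ) ^ (-δ) * (A.card * Y.card) ∧
              ‖∑ a ∈ A, ∑ y ∈ Y, α a * β y * χ (a + y)‖
                ≤ (p : ℝ) ^ (-δ) * (A.card * Real.sqrt (Y.card * ∑ y ∈ Y, ‖β y‖ ^ 2))) := by
  have weaken : ∀ (p : ℕ) (_ : Fact p.Prime) (δ x : ℝ), 0 < δ → 0 ≤ x →
      (p : ℝ) ^ (-(2 * δ)) * x ≤ (p : ℝ) ^ (-δ) * x := by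
    intro p hp δ x hδ hx
    have hp1 : (1 : ℝ) ≤ p := by exact_mod_cast hp.out.one_lt.le
    exact mul_le_mul_of_nonneg_right
      (Real.rpow_le_rpow_of_exponent_le hp1 (by linarith)) hx
  refine ⟨?_, ?_⟩
  · intro ε K hε
    obtain ⟨c, hc, δ, hδ, P, hP⟩ := Pool.Agent.W27.TQ.below_root ε K hε
    obtain ⟨P1, hP1⟩ := Pool.Agent.W27.BG.large_rpow δ K hδ
    refine ⟨c, hc, δ, hδ, P + P1, ?_⟩
    intro p _ hp χ hχ A B hBK hB hA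
    have h1 := hP p (by omega) χ hχ B hB hBK A hA
    have h2 := (hP1 p (by omega)).le
    refine ⟨?_, fun Y hY α β hα => ⟨(h1 Y hY α hα).trans
      (weaken p inferInstance δ ((A.card : ℝ) * Y.card) hδ (by positivity)),
      Pool.Agent.W27.TQ.l2_of_l1 χ A Y α β hα δ (h1 Y hY α hα)⟩⟩
    have h3 := h1 B (hBK.trans (mul_le_mul_of_nonneg_right h2 (Nat.cast_nonneg _)))
      (fun _ => 1) (fun _ => by simp)
    calc ‖∑ a ∈ A, ∑ b ∈ B, χ (a + b)‖ = ‖∑ b ∈ B, ∑ a ∈ A, χ (a + b)‖ := by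
          rw [Finset.sum_comm]
      _ ≤ ∑ b ∈ B, ‖∑ a ∈ A, χ (a + b)‖ := norm_sum_le _ _
      _ ≤ (p : ℝ) ^ (-(2 * δ)) * (A.card * B.card) := by simpa using h3
      _ ≤ _ := weaken p inferInstance δ ((A.card : ℝ) * B.card) hδ (by positivity)
  · intro ε hε
    obtain ⟨δ, hδ, P, hP⟩ := Pool.Agent.W27.TQ.ap_mean ε hε
    refine ⟨δ, hδ, P, ?_⟩
    intro p _ hp χ hχ N v A Y hv hNp hN hA hAN hY α β hα
    have h1 := hP p hp χ hχ N hNp hN v hv A hA hAN Y hY α hα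
    exact ⟨h1.trans (weaken p inferInstance δ ((A.card : ℝ) * Y.card) hδ (by positivity)),
      Pool.Agent.W27.TQ.l2_of_l1 χ A Y α β hα δ h1⟩

end Pool.Agent.Results.MP_f6e9a2_nt.BelowSquareRoot
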