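import Mathlib
import Pool.Agent.W27.TP.Main

set_option autoImplicit false

namespace Pool.Agent.Results.MP_f6e9a2_nt.BoundedDoublingThird

open scoped Pointwise

/-- The Paley graph conjecture for an ARBITRARY set `A` and a set `B` of bounded doubling, as soon
as `|A| |B|^2 ≥ p^(1+ε)` and `|A| ≥ p^ε` (for instance `|A|, |B| ≥ p^(1/3+ε)`), for every large
prime and every nontrivial character.
For all `ε > 0` and `K` there are `δ > 0` and `P` such that for every prime `p ≥ P`, every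
nontrivial `χ` modulo `p`, all `A, B` with `|B+B| ≤ K |B|`, `|A| ≥ p^ε` and
`|A| |B|^2 ≥ p^(1+ε)`:
* `|∑_{a ∈ A, b ∈ B} χ(a+b)| ≤ p^(-δ) |A| |B|`;
* for every set `Y` with `|Y+B| ≤ p^δ |Y|` (`Y = B`, or any union of disjoint translates of `B`,
  ...), all complex weights `α` with `|α| ≤ 1` and all complex weights `β`,
  `∑_{y ∈ Y} |∑_{a ∈ A} α(a) χ(a+y)| ≤ p^(-δ) |A| |Y|` and
  `|∑_{a ∈ A, y ∈ Y} α(a) β(y) χ(a+y)| ≤ p^(-δ) |A| |Y|^(1/2) ‖β‖₂`. -/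
theorem result :
    ∀ ε K : ℝ, 0 < ε →
      ∃ δ : ℝ, 0 < δ ∧ ∃ P : ℕ, ∀ p : ℕ, ∀ _ : Fact p.Prime, P ≤ p →
        ∀ χ : DirichletCharacter ℂ p, χ ≠ 1 → ∀ A B : Finset (ZMod p),
          ((B + B).card : ℝ) ≤ K * B.card → (p : ℝ) ^ ε ≤ A.card →
          (p : ℝ) ^ (1 + ε) ≤ A.card * (B.card : ℝ) ^ 2 →
          ‖∑ a ∈ A, ∑ b ∈ B, χ (a + b)‖ ≤ (p : ℝ) ^ (-δ) * (A.card * B.card) ∧
          ∀ Y : Finset (ZMod p), ((Y + B).card : ℝ) ≤ (p : ℝ) ^ δ * Y.card →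
            ∀ α β : ZMod p → ℂ, (∀ a, ‖α a‖ ≤ 1) →
              ∑ y ∈ Y, ‖∑ a ∈ A, α a * χ (a + y)‖ ≤ (p : ℝ) ^ (-δ) * (A.card * Y.card) ∧
              ‖∑ a ∈ A, ∑ y ∈ Y, α a * β y * χ (a + y)‖
                ≤ (p : ℝ) ^ (-δ) * (A.card * Real.sqrt (Y.card * ∑ y ∈ Y, ‖β y‖ ^ 2)) := by
  intro ε K hε
  obtain ⟨δ, hδ, P, hP⟩ := Pool.Agent.W27.TP.third ε K hε
  obtain ⟨P1, hP1⟩ := Pool.Agent.W27.BG.large_rpow δ K hδ
  refine ⟨δ, hδ, P + P1, ?_⟩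
  intro p _ hp χ hχ A B hBK hA hAB
  have h1 := hP p (by omega) χ hχ B hBK A hA hAB
  have h2 := (hP1 p (by omega)).le
  refine ⟨?_, fun Y hY α β hα => h1 Y hY α β hα⟩
  have h3 := (h1 B (hBK.trans (mul_le_mul_of_nonneg_right h2 (Nat.cast_nonneg _)))
    (fun _ => 1) (fun _ => 1) (fun _ => by simp)).1
  calc ‖∑ a ∈ A, ∑ b ∈ B, χ (a + b)‖ = ‖∑ b ∈ B, ∑ a ∈ A, χ (a + b)‖ := by
        rw [Finset.sum_comm]
    _ ≤ ∑ b ∈ B, ‖∑ a ∈ A, χ (a + b)‖ := norm_sum_le _ _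
    _ ≤ _ := by simpa using h3

end Pool.Agent.Results.MP_f6e9a2_nt.BoundedDoublingThird
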